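import Mathlib

/-!
Base case (`d = 4`) of the ball partitioning counterexample: a finite cover check.
-/

namespace Pool.Agent.R543.BP

/-- every entry of `v` is `≤ lo`, and `v` has the same length as `bs` -/
def shortLe : List ℕ → List ℕ → ℕ → Bool
  | [], [], _ => true
  | _ :: bs, a :: v, lo => Nat.ble a lo && shortLe bs v lo
  | _, _, _ => false

/-- keep the vectors whose head is `≤ x`, and drop the head -/
def ft (x : ℕ) : List (List ℕ) → List (List ℕ)
  | [] => []
  | [] :: r => ft x r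
  | (h :: t) :: r => match Nat.ble h x with
    | true => t :: ft x r
    | false => ft x r

/-- the cover check -/
def covers : List ℕ → List (List ℕ) → ℕ → ℕ → Bool
  | [], vs, _, _ => vs.any (fun v => v.isEmpty)
  | b :: bs, vs, lo, s =>
    vs.any (fun v => shortLe (b :: bs) v lo) ||
    (match bs with
     | [] => vs.any (fun v => shortLe [b] v (max lo (min 20 (b - s))))
     | b' :: bs' => (List.range (21 - lo)).all (fun t =>
        Nat.blt (s + (lo + t)) b ||
          covers (b' :: bs') (ft (lo + t) vs) (lo + t) (s + (lo + t))))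

/-- admissible value lists -/
def Adm : List ℕ → List ℕ → ℕ → ℕ → Prop
  | [], [], _, _ => True
  | [b], [c], lo, s => lo ≤ c ∧ c ≤ 20 ∧ (b ≤ s + c ∨ c = 20)
  | b :: b' :: bs, c :: cs, lo, s => lo ≤ c ∧ c ≤ 20 ∧ b ≤ s + c ∧ Adm (b' :: bs) cs c (s + c)
  | _, _, _, _ => False

theorem mem_ft {x : ℕ} {v : List ℕ} : ∀ {vs : List (List ℕ)}, v ∈ ft x vs →
    ∃ h, h ≤ x ∧ (h :: v) ∈ vs := by
  intro vs
  induction vs with
  | nil => intro h; simp [ft] at h
  | cons a r ih =>
    intro h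
    cases a with
    | nil =>
      simp only [ft] at h
      obtain ⟨k, hk, hm⟩ := ih h
      exact ⟨k, hk, List.mem_cons_of_mem _ hm⟩
    | cons y t =>
      rw [ft] at h
      by_cases hy : Nat.ble y x = true
      · simp only [hy] at h
        rcases List.mem_cons.1 h with h | h
        · subst h
          exact ⟨y, Nat.le_of_ble_eq_true hy, List.mem_cons_self⟩
        · obtain ⟨k, hk, hm⟩ := ih h
          exact ⟨k, hk, List.mem_cons_of_mem _ hm⟩
      · have hy' : Nat.ble y x = false := Bool.eq_false_iff.2 hy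
        simp only [hy'] at h
        obtain ⟨k, hk, hm⟩ := ih h
        exact ⟨k, hk, List.mem_cons_of_mem _ hm⟩

theorem shortLe_sound : ∀ (bs v cs : List ℕ) (lo : ℕ), shortLe bs v lo = true →
    cs.length = bs.length → (∀ c ∈ cs, lo ≤ c) → List.Forall₂ (· ≤ ·) v cs := by
  intro bs
  induction bs with
  | nil =>
    intro v cs lo h hl hc
    cases v with
    | nil =>
      cases cs with
      | nil => exact List.Forall₂.nil
      | cons _ _ => simp at hl
    | cons _ _ => simp [shortLe] at h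
  | cons b bs ih =>
    intro v cs lo h hl hc
    cases v with
    | nil => simp [shortLe] at h
    | cons a v =>
      cases cs with
      | nil => simp at hl
      | cons c cs =>
        simp only [shortLe, Bool.and_eq_true] at h
        refine List.Forall₂.cons ?_ (ih v cs lo h.2 (by simpa using hl)
          (fun c' hc' => hc c' (List.mem_cons_of_mem _ hc')))
        exact le_trans (Nat.le_of_ble_eq_true h.1) (hc c List.mem_cons_self)

theorem adm_facts : ∀ (bs cs : List ℕ) (lo s : ℕ), Adm bs cs lo s →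
    cs.length = bs.length ∧ ∀ c ∈ cs, lo ≤ c := by
  intro bs
  induction bs with
  | nil =>
    intro cs lo s h
    cases cs with
    | nil => simp
    | cons _ _ => simp [Adm] at h
  | cons b bs ih =>
    intro cs lo s h
    cases bs with
    | nil =>
      cases cs with
      | nil => simp [Adm] at h
      | cons c cs =>
        cases cs with
        | nil => simp only [Adm] at h; simp [h.1]
        | cons _ _ => simp [Adm] at h
    | cons b' bs' =>
      cases cs with
      | nil => simp [Adm] at h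
      | cons c cs =>
        simp only [Adm] at h
        obtain ⟨h1, h2, h3, h4⟩ := h
        obtain ⟨hl, hc⟩ := ih cs c (s + c) h4
        refine ⟨by simp at hl ⊢; exact hl, ?_⟩
        intro c' hc'
        rcases List.mem_cons.1 hc' with h | h
        · omega
        · exact le_trans h1 (hc c' h)

theorem covers_sound : ∀ (bs : List ℕ) (vs : List (List ℕ)) (lo s : ℕ) (cs : List ℕ),
    covers bs vs lo s = true → Adm bs cs lo s → ∃ v ∈ vs, List.Forall₂ (· ≤ ·) v cs := by
  intro bs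
  induction bs with
  | nil =>
    intro vs lo s cs h ha
    cases cs with
    | cons _ _ => simp [Adm] at ha
    | nil =>
      simp only [covers, List.any_eq_true] at h
      obtain ⟨v, hv, he⟩ := h
      have : v = [] := by simpa using he
      subst this
      exact ⟨[], hv, List.Forall₂.nil⟩
  | cons b bs ih =>
    intro vs lo s cs h ha
    obtain ⟨hl, hlo⟩ := adm_facts _ _ _ _ ha
    cases bs with
    | nil =>
      simp only [covers, Bool.or_eq_true] at h
      rcases h with h | h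
      · rw [List.any_eq_true] at h
        obtain ⟨v, hv, he⟩ := h
        exact ⟨v, hv, shortLe_sound _ _ _ _ he hl hlo⟩
      · cases cs with
        | nil => simp [Adm] at ha
        | cons c cs =>
          cases cs with
          | cons _ _ => simp [Adm] at ha
          | nil =>
            simp only [Adm] at ha
            simp only [List.any_eq_true] at h
            obtain ⟨v, hv, he⟩ := h
            refine ⟨v, hv, shortLe_sound _ _ _ _ he (by simp) ?_⟩
            intro c' hc'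
            have : c' = c := by simpa using hc'
            subst this
            obtain ⟨a1, a2, a3⟩ := ha
            omega
    | cons b' bs' =>
      simp only [covers, Bool.or_eq_true] at h
      rcases h with h | h
      · rw [List.any_eq_true] at h
        obtain ⟨v, hv, he⟩ := h
        exact ⟨v, hv, shortLe_sound _ _ _ _ he hl hlo⟩
      · cases cs with
        | nil => simp [Adm] at ha
        | cons c cs =>
          simp only [Adm] at ha
          obtain ⟨a1, a2, a3, a4⟩ := ha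
          rw [List.all_eq_true] at h
          have h1 := h (c - lo) (by rw [List.mem_range]; omega)
          have hc : lo + (c - lo) = c := by omega
          rw [hc, Bool.or_eq_true] at h1
          rcases h1 with h1 | h1
          · exfalso
            rw [Nat.blt_eq] at h1
            omega
          · obtain ⟨v, hv, hf⟩ := ih (ft c vs) c (s + c) cs h1 a4
            obtain ⟨k, hk, hm⟩ := mem_ft hv
            exact ⟨k :: v, hm, List.Forall₂.cons hk hf⟩

/-- digit extraction in base 5 -/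
def dig (c i : ℕ) : ℕ := c / 5 ^ i % 5

/-- validity of a certificate: bins are listed in the order `5,4,3,2,1,0` -/
def valid : List ℕ × List ℕ → Bool
  | ([v5, v4, v3, v2, v1, v0], [k5, k4, k3, k2, k1, k0]) =>
    [(v5, k5), (v4, k4), (v3, k3), (v2, k2), (v1, k1), (v0, k0)].all (fun p =>
      Nat.beq (dig p.2 0 + dig p.2 1 + dig p.2 2 + dig p.2 3 + dig p.2 4 + dig p.2 5) 4 &&
      Nat.beq (5 * dig p.2 0 + 3 * dig p.2 1 + 3 * dig p.2 2 + 2 * dig p.2 3 + 2 * dig p.2 4) p.1) &&
    [0, 1, 2, 3, 4, 5].all (fun i =>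
      Nat.beq (dig k0 i + dig k1 i + dig k2 i + dig k3 i + dig k4 i + dig k5 i) 4)
  | _ => false

/-- the certificates -/
def certs : List (List ℕ × List ℕ) :=
  [([5,7,9,11,13,15],[6900,4400,900,3156,136,132]),
   ([4,6,8,12,14,16],[7500,4500,3300,276,36,12]),
   ([2,7,9,11,14,17],[10000,4400,900,180,16,128]),
   ([2,8,10,12,13,15],[10000,2000,3276,80,136,132]),
   ([0,9,10,11,14,16],[12500,1900,800,376,36,12]),
   ([6,7,8,10,12,17],[5000,6876,3300,300,20,128]),
   ([4,6,10,11,12,17],[7500,4500,300,3176,20,128]),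
   ([6,8,10,11,12,13],[5000,1000,6252,3176,60,136]),
   ([4,6,11,12,13,14],[7500,4500,200,3252,156,16]),
   ([3,6,9,13,14,15],[9400,5000,900,176,16,132]),
   ([4,8,9,10,13,16],[7500,6276,1400,300,136,12]),
   ([5,7,8,9,15,16],[6900,4400,3800,380,132,12]),
   ([4,5,9,11,15,16],[7500,6900,900,180,132,12]),
   ([5,6,7,11,14,17],[6900,5000,3400,180,16,128]),
   ([3,7,8,11,13,18],[9400,4400,1500,180,136,8]),
   ([7,8,9,10,12,14],[6876,2000,3376,3276,80,16]),
   ([4,9,10,11,12,14],[7500,4376,3276,376,80,16]),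
   ([0,10,11,12,13,14],[12500,1300,1376,276,156,16]),
   ([5,7,9,10,11,18],[6900,4400,900,280,3136,8]),
   ([6,7,8,12,13,14],[5000,3900,3300,3252,156,16]),
   ([2,8,9,10,15,16],[10000,3800,1400,280,132,12]),
   ([2,8,10,11,12,17],[10000,2000,300,3176,20,128]),
   ([4,5,9,12,13,17],[7500,6900,900,60,136,128]),
   ([3,6,9,10,14,18],[9400,5000,900,300,16,8]),
   ([3,7,10,11,14,15],[9400,4400,1300,376,16,132]),
   ([0,9,10,11,12,18],[12500,1900,800,376,40,8]),
   ([6,7,8,10,14,15],[5000,6876,3300,300,16,132]),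
   ([5,6,7,13,14,15],[6900,5000,3400,176,16,132]),
   ([6,8,9,10,11,16],[5000,6276,900,300,3136,12]),
   ([3,6,10,12,13,16],[9400,5000,800,276,136,12]),
   ([5,7,8,9,13,18],[6900,4400,3800,380,136,8]),
   ([3,9,11,12,12,13],[9400,1900,876,3252,60,136]),
   ([2,7,11,13,13,14],[10000,4400,876,176,156,16]),
   ([3,8,9,12,14,14],[9400,2500,400,3252,56,16]),
   ([4,5,10,12,14,15],[7500,6900,800,276,16,132]),
   ([0,9,9,13,14,15],[12500,1900,900,176,16,132]),
   ([3,9,10,10,11,17],[9400,1900,800,260,3136,128]),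
   ([5,6,8,11,12,18],[6900,5000,500,3176,40,8]),
   ([8,9,10,10,11,12],[2500,3376,6252,300,3176,20]),
   ([7,8,8,9,13,15],[6876,3800,3800,880,136,132]),
   ([3,9,9,11,12,16],[9400,4376,1400,376,60,12]),
   ([0,9,11,12,12,16],[12500,1900,876,276,60,12]),
   ([6,6,7,10,15,16],[6300,5000,3900,280,132,12]),
   ([3,7,8,11,15,16],[9400,4400,1500,180,132,12]),
   ([7,8,9,9,10,17],[6876,3800,3180,1380,260,128]),
   ([2,8,8,12,13,17],[10000,2000,3300,60,136,128]),
   ([4,8,8,9,14,17],[7500,3800,3800,380,16,128]),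
   ([5,7,11,12,12,13],[6900,4400,876,3252,60,136]),
   ([2,10,11,11,12,14],[10000,3776,1376,376,80,16]),
   ([5,6,10,11,14,14],[9376,5000,800,376,56,16]),
   ([5,9,10,10,11,15],[9376,1900,800,280,3136,132]),
   ([6,6,9,12,12,15],[6300,5000,900,3252,40,132]),
   ([5,5,9,10,14,17],[6900,6900,1400,280,16,128]),
   ([3,8,9,10,12,18],[9400,2500,3376,300,40,8]),
   ([0,9,9,10,14,18],[12500,1900,900,300,16,8]),
   ([7,7,10,11,11,14],[6876,4400,800,376,3156,16]),
   ([4,7,9,13,13,14],[7500,6876,900,176,156,16]),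
   ([2,9,10,10,14,15],[10000,4376,800,300,16,132]),
   ([2,8,8,13,14,15],[10000,2000,3300,176,16,132]),
   ([4,7,7,12,15,15],[7500,4400,3400,60,132,132]),
   ([4,7,11,11,11,16],[7500,4400,200,376,3136,12]),
   ([5,8,8,11,12,16],[9376,2500,500,3176,60,12]),
   ([5,5,8,13,13,16],[6900,6900,1500,176,136,12]),
   ([3,6,10,10,15,16],[9400,5000,800,280,132,12]),
   ([7,7,7,8,14,17],[4400,4400,3400,3280,16,128]),
   ([6,8,8,9,11,18],[5000,3800,3300,380,3136,8]),
   ([4,5,10,11,12,18],[7500,6900,800,376,40,8]),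
   ([2,7,9,12,12,18],[10000,4400,900,276,40,8]),
   ([6,6,7,10,13,18],[6300,5000,3900,280,136,8]),
   ([5,10,11,11,11,12],[9376,1300,1376,376,3176,20]),
   ([6,9,9,10,13,13],[6300,4376,4376,300,136,136]),
   ([0,9,12,13,13,13],[12500,1900,776,176,136,136]),
   ([3,6,12,12,12,15],[9400,5000,776,276,40,132]),
   ([2,7,11,11,13,16],[10000,4400,700,376,136,12]),
   ([4,7,7,12,13,17],[7500,4400,3400,60,136,128]),
   ([0,9,9,12,13,17],[12500,1900,900,60,136,128]),
   ([3,10,10,11,13,13],[9400,3776,1300,876,136,136]),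
   ([4,5,12,13,13,13],[7500,6900,776,176,136,136]),
   ([8,9,9,10,10,14],[6276,4376,4376,300,280,16]),
   ([6,6,10,10,13,15],[6300,5000,3776,280,136,132]),
   ([5,8,9,9,14,15],[9376,3800,1900,400,16,132]),
   ([7,7,9,9,12,16],[6876,6876,1400,400,60,12]),
   ([5,5,11,11,12,16],[6900,6900,1376,376,60,12]),
   ([4,6,8,10,16,16],[7500,4500,3300,300,12,12]),
   ([0,10,11,11,11,17],[12500,1300,680,640,376,128]),
   ([3,6,11,11,11,18],[9400,5000,700,140,376,8]),
   ([2,9,9,9,13,18],[10000,3200,1900,380,136,8]),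
   ([8,8,9,11,12,12],[6276,2500,400,3176,3252,20]),
   ([5,9,9,12,12,13],[9376,1900,900,3252,60,136]),
   ([0,11,12,12,12,13],[12500,1876,776,276,60,136]),
   ([2,8,12,12,13,13],[10000,2000,3252,100,136,136]),
   ([0,9,11,12,14,14],[12500,1900,876,276,56,16]),
   ([4,6,8,14,14,14],[7500,4500,3300,252,56,16]),
   ([7,7,7,11,13,15],[4400,4400,3400,3156,136,132]),
   ([2,7,9,12,15,15],[10000,4400,900,60,132,132]),
   ([6,6,6,12,14,16],[6300,5000,4000,276,36,12]),
   ([0,9,9,10,16,16],[12500,1900,900,300,12,12]),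
   ([5,9,9,10,10,17],[9376,3200,1900,760,260,128]),
   ([2,7,10,10,13,18],[10000,4400,800,280,136,8]),
   ([5,6,8,9,14,18],[6900,5000,3300,400,16,8]),
   ([6,6,9,13,13,13],[6300,5000,3876,176,136,136]),
   ([4,8,11,11,12,14],[7500,6276,1376,376,80,16]),
   ([2,9,9,13,13,14],[10000,4376,900,176,156,16]),
   ([5,8,8,11,14,14],[9376,2500,500,3176,56,16]),
   ([8,8,8,10,11,15],[6276,2500,3300,280,3136,132]),
   ([0,10,11,11,13,15],[12500,1300,680,876,136,132]),
   ([5,5,8,12,15,15],[6900,6900,1500,60,132,132]),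
   ([2,10,10,11,11,16],[10000,1300,800,376,3136,12]),
   ([6,7,8,8,15,16],[5000,3900,3300,3280,132,12]),
   ([3,8,9,9,15,16],[9400,3800,1900,380,132,12]),
   ([6,6,10,10,11,17],[6300,5000,800,260,3136,128]),
   ([7,7,7,11,11,17],[4400,4400,3400,160,3136,128]),
   ([5,8,9,9,12,17],[9376,3800,1900,400,20,128]),
   ([0,10,10,10,13,17],[12500,1300,1300,260,136,128]),
   ([4,7,9,9,14,17],[7500,4400,3200,380,16,128]),
   ([4,8,10,10,10,18],[7500,6276,1300,280,260,8]),
   ([4,7,7,10,14,18],[7500,4400,3400,300,16,8]),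
   ([4,5,8,11,14,18],[7500,6900,1000,200,16,8]),
   ([7,10,10,11,11,11],[6876,1300,800,376,3136,3136]),
   ([6,8,10,12,12,12],[5000,1000,6252,3252,100,20]),
   ([9,9,9,9,11,13],[4376,4376,3200,400,3136,136]),
   ([7,8,8,12,12,13],[6876,2000,3300,3252,60,136]),
   ([6,10,10,10,10,14],[5000,6252,3776,300,280,16]),
   ([7,7,9,9,14,14],[6876,6876,1400,400,56,16]),
   ([0,10,10,12,14,14],[12500,1300,1300,256,252,16]),
   ([4,5,9,14,14,14],[7500,6900,900,252,56,16]),
   ([3,7,8,13,13,16],[9400,4400,1500,176,136,12]),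
   ([0,8,10,13,13,16],[12500,2500,300,176,136,12]),
   ([0,8,9,12,15,16],[12500,2500,400,80,132,12]),
   ([7,8,8,8,12,17],[6876,2000,3300,3300,20,128]),
   ([3,8,8,10,14,17],[9400,2500,3300,280,16,128]),
   ([7,7,8,10,10,18],[6876,4400,3800,280,260,8]),
   ([2,9,10,10,11,18],[10000,1900,300,280,3136,8]),
   ([4,8,8,11,11,18],[7500,1500,3300,180,3136,8]),
   ([5,6,7,12,12,18],[6900,5000,3400,276,40,8]),
   ([4,6,9,10,13,18],[7500,6300,1400,280,136,8]),
   ([6,7,8,9,10,20],[6300,4400,3780,880,260,4]),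
   ([5,6,8,10,11,20],[6900,5000,3300,280,140,4]),
   ([3,7,9,10,11,20],[9400,4400,1400,280,140,4]),
   ([2,11,11,12,12,12],[10000,1876,376,3252,100,20]),
   ([6,8,11,11,11,13],[5000,1000,3176,3176,3136,136]),
   ([4,8,10,12,13,13],[7500,1500,6252,100,136,136]),
   ([4,10,10,10,12,14],[7500,3776,800,280,3252,16]),
   ([5,5,11,12,13,14],[6900,6900,1376,276,156,16]),
   ([5,7,10,10,14,14],[9376,4400,1300,280,252,16]),
   ([3,6,11,12,14,14],[9400,5000,876,276,56,16]),
   ([2,7,10,13,14,14],[10000,4400,800,156,252,16]),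
   ([5,7,10,11,12,15],[9376,4400,1300,376,40,132]),
   ([2,7,12,12,12,15],[10000,4400,776,276,40,132]),
   ([3,9,9,11,13,15],[9400,1900,900,3156,136,132]),
   ([0,8,12,12,13,15],[12500,2500,276,80,136,132]),
   ([4,5,11,11,14,15],[7500,6900,700,376,16,132]),
   ([0,8,11,11,15,15],[12500,2500,200,160,132,132]),
   ([8,9,9,9,9,16],[6276,4376,3200,1380,380,12]),
   ([6,6,7,9,16,16],[6300,5000,3900,400,12,12]),
   ([0,8,11,11,13,17],[12500,2500,200,160,136,128]),
   ([6,6,6,12,13,17],[6300,5000,4000,60,136,128]),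
   ([5,8,8,8,14,17],[6900,2000,3300,3280,16,128]),
   ([4,6,8,12,12,18],[7500,4500,3300,276,40,8]),
   ([0,8,9,12,13,18],[12500,2500,400,80,136,8]),
   ([4,8,9,9,10,20],[7500,3800,3180,880,260,4]),
   ([2,8,9,10,11,20],[10000,3800,1400,280,140,4]),
   ([4,5,10,10,11,20],[7500,6900,800,280,140,4]),
   ([0,9,10,10,11,20],[12500,1900,800,280,140,4]),
   ([4,7,8,9,12,20],[7500,4400,3300,400,20,4]),
   ([9,10,10,10,10,11],[4376,6252,1300,300,260,3136]),
   ([7,7,11,11,12,12],[6876,6876,1376,376,100,20]),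
   ([4,10,11,11,11,13],[7500,1300,376,3176,3136,136]),
   ([8,8,8,10,13,13],[6276,6276,2500,300,136,136]),
   ([6,7,7,13,13,14],[5000,6876,3400,176,156,16]),
   ([0,8,11,13,14,14],[12500,2500,376,176,56,16]),
   ([6,9,9,9,12,15],[6300,4376,4376,400,40,132]),
   ([3,8,10,12,12,15],[9400,2500,300,3252,40,132]),
   ([6,6,9,11,13,15],[6300,5000,900,3156,136,132]),
   ([4,8,9,10,14,15],[7500,6276,1400,300,16,132]),
   ([0,8,9,14,14,15],[12500,2500,400,76,16,132]),
   ([4,5,11,12,12,16],[7500,6900,876,276,60,12]),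
   ([4,5,10,10,15,16],[7500,6900,800,280,132,12]),
   ([2,8,8,11,15,16],[10000,2000,3300,180,132,12]),
   ([3,6,9,11,15,16],[9400,5000,900,180,132,12]),
   ([5,6,7,10,16,16],[6900,5000,3400,300,12,12]),
   ([2,7,9,10,16,16],[10000,4400,900,300,12,12]),
   ([4,7,9,11,12,17],[7500,4400,400,3176,20,128]),
   ([6,6,6,11,14,17],[6300,5000,4000,180,16,128]),
   ([0,8,10,11,14,17],[12500,2500,300,180,16,128]),
   ([4,9,9,9,11,18],[7500,3200,1400,380,3136,8]),
   ([3,7,10,11,11,18],[9400,4400,1300,140,376,8]),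
   ([7,7,7,9,12,18],[6876,4400,3900,400,40,8]),
   ([6,6,9,9,12,18],[6300,5000,3876,400,40,8]),
   ([3,6,9,12,12,18],[9400,5000,900,276,40,8]),
   ([6,7,8,8,13,18],[5000,3900,3300,3280,136,8]),
   ([7,8,8,8,9,20],[4400,3800,3780,3260,380,4]),
   ([5,6,9,10,10,20],[6900,6300,1900,260,260,4]),
   ([7,7,7,8,11,20],[4400,4400,3400,3280,140,4]),
   ([5,8,8,8,11,20],[6900,2000,3300,3280,140,4]),
   ([5,6,9,9,11,20],[6900,6300,1900,380,140,4]),
   ([6,6,7,10,11,20],[6300,5000,3900,280,140,4]),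
   ([3,8,8,10,11,20],[9400,2500,3300,280,140,4]),
   ([4,7,7,11,11,20],[7500,4400,3400,180,140,4]),
   ([4,5,9,11,11,20],[7500,6900,900,180,140,4]),
   ([3,6,9,10,12,20],[9400,5000,900,300,20,4]),
   ([2,7,8,11,12,20],[10000,4400,1000,200,20,4]),
   ([5,9,11,11,12,12],[9376,4376,1376,376,100,20]),
   ([6,6,12,12,12,12],[5000,4000,3252,3252,100,20]),
   ([6,7,10,11,13,13],[5000,6876,300,3176,136,136]),
   ([0,10,11,13,13,13],[12500,1300,1376,176,136,136]),
   ([3,6,12,13,13,13],[9400,5000,776,176,136,136]),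
   ([8,8,8,8,14,14],[6276,6276,2500,500,56,16]),
   ([7,9,9,10,10,15],[6876,4376,3200,780,260,132]),
   ([0,11,11,11,12,15],[12500,700,1876,376,40,132]),
   ([0,10,10,12,13,15],[12500,1300,1300,256,136,132]),
   ([5,6,8,13,13,15],[6900,5000,3300,156,136,132]),
   ([2,7,8,14,14,15],[10000,4400,1000,76,16,132]),
   ([0,10,10,10,15,15],[12500,1300,1300,260,132,132]),
   ([0,8,10,12,15,15],[12500,2500,300,60,132,132]),
   ([5,6,9,9,15,16],[6900,6300,1900,380,132,12]),
   ([0,8,10,10,16,16],[12500,2500,300,300,12,12]),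
   ([5,7,10,10,11,17],[6900,4400,800,260,3136,128]),
   ([3,6,11,11,12,17],[9400,5000,700,376,20,128]),
   ([0,8,11,12,12,17],[12500,2500,376,100,20,128]),
   ([6,7,7,9,14,17],[6300,4400,4400,380,16,128]),
   ([8,8,8,9,9,18],[6276,3800,3780,1380,380,8]),
   ([6,9,9,9,9,18],[6300,4376,3180,1380,380,8]),
   ([6,7,9,10,10,18],[6300,6876,1900,280,260,8]),
   ([5,6,10,10,11,18],[6900,5000,300,280,3136,8]),
   ([6,7,7,11,11,18],[5000,3900,3400,180,3136,8]),
   ([2,9,9,11,11,18],[10000,1900,400,180,3136,8]),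
   ([2,7,11,11,11,18],[10000,4400,700,140,376,8]),
   ([4,8,8,10,12,18],[7500,6276,1500,300,40,8]),
   ([5,5,9,11,12,18],[6900,6900,1400,376,40,8]),
   ([3,8,9,9,13,18],[9400,3800,1900,380,136,8]),
   ([2,8,9,10,13,18],[10000,3800,1400,280,136,8]),
   ([4,5,10,10,13,18],[7500,6900,800,280,136,8]),
   ([0,8,10,10,14,18],[12500,2500,300,300,16,8]),
   ([0,8,9,11,14,18],[12500,2500,400,200,16,8]),
   ([6,7,9,9,9,20],[6300,4400,3160,1380,380,4]),
   ([3,9,9,9,10,20],[9400,3200,1880,880,260,4]),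
   ([3,7,10,10,10,20],[9400,4400,1300,260,260,4]),
   ([2,7,10,10,11,20],[10000,4400,800,280,140,4]),
   ([0,9,9,11,11,20],[12500,1900,900,180,140,4]),
   ([6,7,7,8,12,20],[5000,3900,3400,3300,20,4]),
   ([2,8,9,9,12,20],[10000,3800,1400,400,20,4]),
   ([5,6,7,10,12,20],[6900,5000,3400,300,20,4]),
   ([5,5,8,10,12,20],[6900,6900,1500,300,20,4]),
   ([9,9,10,10,11,11],[4376,4376,300,300,3136,3136]),
   ([7,10,10,10,11,12],[6876,6252,1300,800,376,20]),
   ([4,10,11,11,12,12],[7500,6252,1376,376,100,20]),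
   ([3,11,11,11,11,13],[9400,700,1876,376,3136,136]),
   ([8,9,9,9,12,13],[6276,4376,4376,400,60,136]),
   ([3,9,11,11,13,13],[9400,1900,876,3176,136,136]),
   ([0,8,13,13,13,13],[12500,2500,176,176,136,136]),
   ([8,8,10,10,10,14],[6276,2500,6252,300,280,16]),
   ([7,7,8,12,12,14],[6876,4400,1000,3252,80,16]),
   ([0,10,12,12,12,14],[12500,1300,1276,276,256,16]),
   ([3,10,10,10,13,14],[9400,3776,1300,760,136,252]),
   ([0,11,11,11,13,14],[12500,700,1876,376,156,16]),
   ([0,9,11,13,13,14],[12500,1900,876,176,156,16]),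
   ([2,9,9,12,14,14],[10000,1900,400,3252,56,16]),
   ([0,9,10,13,14,14],[12500,1900,800,156,252,16]),
   ([6,6,6,14,14,14],[6300,5000,4000,252,56,16]),
   ([4,7,7,14,14,14],[7500,4400,3400,252,56,16]),
   ([2,7,10,13,13,15],[10000,4400,800,156,136,132]),
   ([0,8,11,12,14,15],[12500,2500,376,100,16,132]),
   ([0,10,10,12,12,16],[12500,1300,1300,256,256,12]),
   ([0,8,9,13,14,16],[12500,2500,400,176,36,12]),
   ([2,9,9,9,15,16],[10000,3200,1900,380,132,12]),
   ([0,9,10,10,15,16],[12500,1900,800,280,132,12]),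
   ([4,7,7,11,15,16],[7500,4400,3400,180,132,12]),
   ([5,5,8,11,15,16],[6900,6900,1500,180,132,12]),
   ([0,9,9,11,15,16],[12500,1900,900,180,132,12]),
   ([0,8,9,11,16,16],[12500,2500,400,200,12,12]),
   ([3,10,10,10,10,17],[9400,3776,1300,760,260,128]),
   ([8,8,8,8,11,17],[2500,3300,3300,3260,3136,128]),
   ([7,7,9,9,11,17],[4400,4400,3180,380,3136,128]),
   ([6,6,9,11,11,17],[6300,5000,900,160,3136,128]),
   ([5,5,11,11,11,17],[6900,6900,680,640,376,128]),
   ([4,7,10,10,12,17],[7500,6876,800,300,20,128]),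
   ([3,8,8,12,12,17],[9400,2500,3300,276,20,128]),
   ([5,7,7,11,13,17],[6900,4400,3900,160,136,128]),
   ([3,6,10,11,13,17],[9400,5000,800,160,136,128]),
   ([5,5,8,12,13,17],[6900,6900,1500,60,136,128]),
   ([2,8,8,11,14,17],[10000,2000,3300,180,16,128]),
   ([0,10,10,11,11,18],[12500,1300,1300,140,376,8]),
   ([0,9,11,11,11,18],[12500,1900,700,140,376,8]),
   ([0,10,10,10,12,18],[12500,1300,1300,260,256,8]),
   ([0,8,11,11,12,18],[12500,2500,200,376,40,8]),
   ([0,9,9,12,12,18],[12500,1900,900,276,40,8]),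
   ([0,8,10,12,12,18],[12500,2500,300,276,40,8]),
   ([0,9,10,10,13,18],[12500,1900,800,280,136,8]),
   ([0,9,9,11,13,18],[12500,1900,900,180,136,8]),
   ([0,8,10,11,13,18],[12500,2500,300,180,136,8]),
   ([5,8,9,9,9,20],[6900,3800,3160,1380,380,4]),
   ([7,7,7,9,10,20],[4400,4400,3400,3160,260,4]),
   ([5,8,8,9,10,20],[6900,3800,3780,880,260,4]),
   ([2,9,9,10,10,20],[10000,3200,1900,260,260,4]),
   ([0,10,10,10,10,20],[12500,1300,1300,260,260,4]),
   ([6,6,8,9,11,20],[6300,5000,3800,380,140,4]),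
   ([3,6,10,10,11,20],[9400,5000,800,280,140,4]),
   ([6,6,6,11,11,20],[6300,5000,4000,180,140,4]),
   ([4,6,8,11,11,20],[7500,4500,3300,180,140,4]),
   ([0,8,10,11,11,20],[12500,2500,300,180,140,4]),
   ([0,9,9,10,12,20],[12500,1900,900,300,20,4]),
   ([0,8,10,10,12,20],[12500,2500,300,300,20,4]),
   ([0,8,9,11,12,20],[12500,2500,400,200,20,4])]

/-- their sum vectors -/
def vecs : List (List ℕ) := certs.map Prod.fst

theorem certs_valid : certs.all valid = true := by decide +kernel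

theorem vecs_cover : covers [0, 9, 18, 29, 41, 62] vecs 0 0 = true := by decide +kernel

end Pool.Agent.R543.BP
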