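import Mathlib

/-!
The linear inequality behind the induction step `d → d + 1` of the ball partitioning example.
-/

namespace Pool.Agent.R543.BP

/-- the lower bound required of a `k`-element subset of the capacities -/
def bnd (d : ℤ) : ℕ → ℤ
  | 0 => 0
  | 1 => 0
  | 2 => 2*d+1
  | 3 => 4*d+2
  | 4 => 7*d+1
  | 5 => 10*d+1
  | _ => 15*d+2

theorem key (d : ℤ) (hd : 4 ≤ d) (C : Fin 6 → ℤ)
    (h01 : C 1 ≤ C 0) (h12 : C 2 ≤ C 1) (h23 : C 3 ≤ C 2) (h34 : C 4 ≤ C 3) (h45 : C 5 ≤ C 4)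
    (s5 : 0 ≤ C 5) (s4 : 2*(d+1)+1 ≤ C 4 + C 5) (s3 : 4*(d+1)+2 ≤ C 3 + C 4 + C 5)
    (s2 : 7*(d+1)+1 ≤ C 2 + C 3 + C 4 + C 5) (s1 : 10*(d+1)+1 ≤ C 1 + C 2 + C 3 + C 4 + C 5)
    (s0 : 15*(d+1)+2 ≤ C 0 + C 1 + C 2 + C 3 + C 4 + C 5) (A : Finset (Fin 6)) :
    bnd d A.card ≤ ∑ j ∈ A, (C j - (![5,3,3,2,2,0] : Fin 6 → ℤ) j) := by
  have hs : ∑ j ∈ A, (C j - (![5,3,3,2,2,0] : Fin 6 → ℤ) j)
      = ∑ j, if j ∈ A then (C j - (![5,3,3,2,2,0] : Fin 6 → ℤ) j) else 0 := by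
    rw [Finset.sum_ite_mem]; simp
  have hc : A.card = ∑ j, if j ∈ A then 1 else 0 := by
    rw [Finset.sum_ite_mem]; simp
  rw [hs, hc, Fin.sum_univ_six, Fin.sum_univ_six]
  by_cases a0 : (0 : Fin 6) ∈ A <;> by_cases a1 : (1 : Fin 6) ∈ A <;> by_cases a2 : (2 : Fin 6) ∈ A <;>
  by_cases a3 : (3 : Fin 6) ∈ A <;> by_cases a4 : (4 : Fin 6) ∈ A <;> by_cases a5 : (5 : Fin 6) ∈ A <;>
  simp [a0, a1, a2, a3, a4, a5, bnd] <;> omega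

end Pool.Agent.R543.BP
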