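import Mathlib
import Pool.Agent.R543.BP.Base
import Pool.Agent.R543.BP.Key

/-!
Feasibility of every ball partitioning problem with weights `5,3,3,2,2,0`, `d ≥ 4`, and
capacities satisfying the relaxed inequalities (in matrix form).
-/

namespace Pool.Agent.R543.BP

open Finset

/-- matrix form of feasibility: `x i j` copies of the `i`-th weight go to bin `j` -/
def MF (d : ℕ) (C : Fin 6 → ℤ) : Prop :=
  ∃ x : Fin 6 → Fin 6 → ℕ, (∀ i, ∑ j, x i j = d) ∧ (∀ j, ∑ i, x i j = d) ∧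
    ∀ j, ∑ i, (![5,3,3,2,2,0] : Fin 6 → ℤ) i * (x i j : ℤ) ≤ C j

/-- the relaxed inequalities -/
def P (d : ℕ) (C : Fin 6 → ℤ) : Prop :=
  0 ≤ C 5 ∧ 2*(d:ℤ)+1 ≤ C 4 + C 5 ∧ 4*(d:ℤ)+2 ≤ C 3 + C 4 + C 5 ∧
  7*(d:ℤ)+1 ≤ C 2 + C 3 + C 4 + C 5 ∧ 10*(d:ℤ)+1 ≤ C 1 + C 2 + C 3 + C 4 + C 5 ∧
  15*(d:ℤ)+2 ≤ C 0 + C 1 + C 2 + C 3 + C 4 + C 5

theorem MF_perm {d : ℕ} {X : Fin 6 → ℤ} (σ : Equiv.Perm (Fin 6)) (h : MF d (X ∘ σ)) : MF d X := by
  obtain ⟨x, h1, h2, h3⟩ := h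
  refine ⟨fun i j => x i (σ.symm j), ?_, ?_, ?_⟩
  · intro i
    rw [Equiv.sum_comp σ.symm (fun j => x i j)]
    exact h1 i
  · intro j
    exact h2 _
  · intro j
    have := h3 (σ.symm j)
    simpa using this

theorem MF_step {d : ℕ} {C : Fin 6 → ℤ}
    (h : MF d (fun j => C j - (![5,3,3,2,2,0] : Fin 6 → ℤ) j)) : MF (d + 1) C := by
  obtain ⟨x, h1, h2, h3⟩ := h
  refine ⟨fun i j => x i j + if i = j then 1 else 0, ?_, ?_, ?_⟩
  · intro i
    rw [Finset.sum_add_distrib, h1 i]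
    simp
  · intro j
    rw [Finset.sum_add_distrib, h2 j]
    simp
  · intro j
    have := h3 j
    simp only [Nat.cast_add, Nat.cast_ite, Nat.cast_one, Nat.cast_zero, mul_add,
      Finset.sum_add_distrib, mul_ite, mul_one, mul_zero, Finset.sum_ite_eq', Finset.mem_univ,
      if_true]
    linarith

theorem MF_of_valid (p : List ℕ × List ℕ) (hval : valid p = true) (n : Fin 6 → ℕ)
    (hf : List.Forall₂ (· ≤ ·) p.1 [n 5, n 4, n 3, n 2, n 1, n 0])
    (C : Fin 6 → ℤ) (hn : ∀ j, (n j : ℤ) ≤ C j) : MF 4 C := by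
  unfold valid at hval
  split at hval
  · rename_i v5 v4 v3 v2 v1 v0 k5 k4 k3 k2 k1 k0
    simp only [List.forall₂_cons, List.forall₂_nil_right_iff, and_true] at hf
    obtain ⟨f5, f4, f3, f2, f1, f0⟩ := hf
    simp only [List.all_cons, List.all_nil, Bool.and_true, Bool.and_eq_true, Nat.beq_eq] at hval
    obtain ⟨⟨⟨a5, b5⟩, ⟨a4, b4⟩, ⟨a3, b3⟩, ⟨a2, b2⟩, ⟨a1, b1⟩, ⟨a0, b0⟩⟩,
      ⟨c0, c1, c2, c3, c4, c5⟩⟩ := hval
    have g0 : ((v0 : ℕ) : ℤ) ≤ C 0 := le_trans (by exact_mod_cast f0) (hn 0)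
    have g1 : ((v1 : ℕ) : ℤ) ≤ C 1 := le_trans (by exact_mod_cast f1) (hn 1)
    have g2 : ((v2 : ℕ) : ℤ) ≤ C 2 := le_trans (by exact_mod_cast f2) (hn 2)
    have g3 : ((v3 : ℕ) : ℤ) ≤ C 3 := le_trans (by exact_mod_cast f3) (hn 3)
    have g4 : ((v4 : ℕ) : ℤ) ≤ C 4 := le_trans (by exact_mod_cast f4) (hn 4)
    have g5 : ((v5 : ℕ) : ℤ) ≤ C 5 := le_trans (by exact_mod_cast f5) (hn 5)
    rw [← b0] at g0; rw [← b1] at g1; rw [← b2] at g2
    rw [← b3] at g3; rw [← b4] at g4; rw [← b5] at g5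
    push_cast at g0 g1 g2 g3 g4 g5
    refine ⟨fun i j => dig ((![k0, k1, k2, k3, k4, k5] : Fin 6 → ℕ) j) (i : ℕ), ?_, ?_, ?_⟩
    · intro i
      rw [Fin.sum_univ_six]
      fin_cases i
      exacts [c0, c1, c2, c3, c4, c5]
    · intro j
      rw [Fin.sum_univ_six]
      fin_cases j
      exacts [a0, a1, a2, a3, a4, a5]
    · intro j
      rw [Fin.sum_univ_six]
      fin_cases j
      · refine le_trans (le_of_eq ?_) g0
        show (5:ℤ) * (dig k0 0 : ℤ) + 3 * (dig k0 1 : ℤ) + 3 * (dig k0 2 : ℤ) + 2 * (dig k0 3 : ℤ) + 2 * (dig k0 4 : ℤ) + 0 * (dig k0 5 : ℤ) = _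
        ring
      · refine le_trans (le_of_eq ?_) g1
        show (5:ℤ) * (dig k1 0 : ℤ) + 3 * (dig k1 1 : ℤ) + 3 * (dig k1 2 : ℤ) + 2 * (dig k1 3 : ℤ) + 2 * (dig k1 4 : ℤ) + 0 * (dig k1 5 : ℤ) = _
        ring
      · refine le_trans (le_of_eq ?_) g2
        show (5:ℤ) * (dig k2 0 : ℤ) + 3 * (dig k2 1 : ℤ) + 3 * (dig k2 2 : ℤ) + 2 * (dig k2 3 : ℤ) + 2 * (dig k2 4 : ℤ) + 0 * (dig k2 5 : ℤ) = _
        ring
      · refine le_trans (le_of_eq ?_) g3
        show (5:ℤ) * (dig k3 0 : ℤ) + 3 * (dig k3 1 : ℤ) + 3 * (dig k3 2 : ℤ) + 2 * (dig k3 3 : ℤ) + 2 * (dig k3 4 : ℤ) + 0 * (dig k3 5 : ℤ) = _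
        ring
      · refine le_trans (le_of_eq ?_) g4
        show (5:ℤ) * (dig k4 0 : ℤ) + 3 * (dig k4 1 : ℤ) + 3 * (dig k4 2 : ℤ) + 2 * (dig k4 3 : ℤ) + 2 * (dig k4 4 : ℤ) + 0 * (dig k4 5 : ℤ) = _
        ring
      · refine le_trans (le_of_eq ?_) g5
        show (5:ℤ) * (dig k5 0 : ℤ) + 3 * (dig k5 1 : ℤ) + 3 * (dig k5 2 : ℤ) + 2 * (dig k5 3 : ℤ) + 2 * (dig k5 4 : ℤ) + 0 * (dig k5 5 : ℤ) = _
        ring
  · simp at hval

theorem capNat (z : ℤ) (hz : 0 ≤ z) : ∃ n : ℕ, n ≤ 20 ∧ (n : ℤ) ≤ z ∧ ((n : ℤ) = z ∨ n = 20) := by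
  by_cases h : z ≤ 20
  · exact ⟨z.toNat, by omega, by omega, Or.inl (by omega)⟩
  · exact ⟨20, le_refl _, by push_cast; omega, Or.inr rfl⟩

theorem MF_base (C : Fin 6 → ℤ) (hC : Antitone C) (h : P 4 C) : MF 4 C := by
  obtain ⟨s5, s4, s3, s2, s1, s0⟩ := h
  have h01 : C 1 ≤ C 0 := hC (by decide)
  have h12 : C 2 ≤ C 1 := hC (by decide)
  have h23 : C 3 ≤ C 2 := hC (by decide)
  have h34 : C 4 ≤ C 3 := hC (by decide)
  have h45 : C 5 ≤ C 4 := hC (by decide)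
  obtain ⟨n5, u5, l5, e5⟩ := capNat (C 5) (by linarith)
  obtain ⟨n4, u4, l4, e4⟩ := capNat (C 4) (by linarith)
  obtain ⟨n3, u3, l3, e3⟩ := capNat (C 3) (by linarith)
  obtain ⟨n2, u2, l2, e2⟩ := capNat (C 2) (by linarith)
  obtain ⟨n1, u1, l1, e1⟩ := capNat (C 1) (by linarith)
  obtain ⟨n0, u0, l0, e0⟩ := capNat (C 0) (by linarith)
  push_cast at s4 s3 s2 s1 s0
  have m5 : n5 ≤ n4 := by omega
  have m4 : n4 ≤ n3 := by omega
  have m3 : n3 ≤ n2 := by omega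
  have m2 : n2 ≤ n1 := by omega
  have m1 : n1 ≤ n0 := by omega
  have t4 : 9 ≤ n5 + n4 := by omega
  have t3 : 18 ≤ n5 + n4 + n3 := by omega
  have t2 : 29 ≤ n5 + n4 + n3 + n2 := by omega
  have t1 : 41 ≤ n5 + n4 + n3 + n2 + n1 := by omega
  have t0 : 62 ≤ n5 + n4 + n3 + n2 + n1 + n0 ∨ n0 = 20 := by omega
  have hadm : Adm [0, 9, 18, 29, 41, 62] [n5, n4, n3, n2, n1, n0] 0 0 := by
    simp only [Adm, zero_add]
    exact ⟨Nat.zero_le _, u5, Nat.zero_le _, m5, u4, t4, m4, u3, t3, m3, u2, t2, m2, u1, t1,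
      m1, u0, t0⟩
  obtain ⟨v, hv, hf⟩ := covers_sound _ _ _ _ _ vecs_cover hadm
  rw [vecs, List.mem_map] at hv
  obtain ⟨p, hp, rfl⟩ := hv
  have hval := List.all_eq_true.1 certs_valid p hp
  refine MF_of_valid p hval ![n0, n1, n2, n3, n4, n5] hf C ?_
  intro j
  fin_cases j
  exacts [l0, l1, l2, l3, l4, l5]

theorem main : ∀ d : ℕ, 4 ≤ d → ∀ C : Fin 6 → ℤ, Antitone C → P d C → MF d C := by
  intro d hd
  induction d, hd using Nat.le_induction with
  | base => intro C hC h; exact MF_base C hC h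
  | succ d hd ih =>
    intro C hC h
    apply MF_step
    set X : Fin 6 → ℤ := fun j => C j - (![5,3,3,2,2,0] : Fin 6 → ℤ) j with hX
    have hmono := Tuple.monotone_sort (fun j => - X j)
    set σ := Tuple.sort (fun j => - X j) with hσ
    apply MF_perm σ
    apply ih
    · intro a b hab
      have := hmono hab
      simp only [Function.comp] at this ⊢
      linarith
    · have hA : ∀ S : Finset (Fin 6), bnd d S.card ≤ ∑ j ∈ S, X (σ j) := by
        intro S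
        obtain ⟨s5, s4, s3, s2, s1, s0⟩ := h
        push_cast at s5 s4 s3 s2 s1 s0
        have := key d (by exact_mod_cast hd) C (hC (by decide)) (hC (by decide)) (hC (by decide))
          (hC (by decide)) (hC (by decide)) s5 s4 s3 s2 s1 s0 (S.map σ.toEmbedding)
        rw [Finset.card_map, Finset.sum_map] at this
        exact this
      have e5 := hA {5}
      have e4 := hA {4, 5}
      have e3 := hA {3, 4, 5}
      have e2 := hA {2, 3, 4, 5}
      have e1 := hA {1, 2, 3, 4, 5}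
      have e0 := hA {0, 1, 2, 3, 4, 5}
      have c5 : ({5} : Finset (Fin 6)).card = 1 := by decide
      have c4 : ({4, 5} : Finset (Fin 6)).card = 2 := by decide
      have c3 : ({3, 4, 5} : Finset (Fin 6)).card = 3 := by decide
      have c2 : ({2, 3, 4, 5} : Finset (Fin 6)).card = 4 := by decide
      have c1 : ({1, 2, 3, 4, 5} : Finset (Fin 6)).card = 5 := by decide
      have c0 : ({0, 1, 2, 3, 4, 5} : Finset (Fin 6)).card = 6 := by decide
      rw [c5] at e5; rw [c4] at e4; rw [c3] at e3; rw [c2] at e2; rw [c1] at e1; rw [c0] at e0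
      rw [Finset.sum_singleton] at e5
      rw [Finset.sum_insert (by decide), Finset.sum_singleton] at e4
      rw [Finset.sum_insert (by decide), Finset.sum_insert (by decide),
        Finset.sum_singleton] at e3
      rw [Finset.sum_insert (by decide), Finset.sum_insert (by decide),
        Finset.sum_insert (by decide), Finset.sum_singleton] at e2
      rw [Finset.sum_insert (by decide), Finset.sum_insert (by decide),
        Finset.sum_insert (by decide), Finset.sum_insert (by decide),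
        Finset.sum_singleton] at e1
      rw [Finset.sum_insert (by decide), Finset.sum_insert (by decide),
        Finset.sum_insert (by decide), Finset.sum_insert (by decide),
        Finset.sum_insert (by decide), Finset.sum_singleton] at e0
      simp only [bnd] at e0 e1 e2 e3 e4 e5
      simp only [P, Function.comp]
      refine ⟨?_, ?_, ?_, ?_, ?_, ?_⟩ <;> linarith

end Pool.Agent.R543.BP
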